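import Pool.Agent.V11113.DC.Seq

/-!
# Weighted backward shifts with an exact distributional chaos exponent
-/

set_option autoImplicit false

namespace Pool.Agent.Results.MP_39b2af_an.ExactExponent

open Filter Topology

/-- The lower `q`-density `liminf |A ∩ [1, n ^ q]| / n`. -/
noncomputable def lowerDensity (q : ℝ) (A : Set ℕ) : ENNReal :=
  liminf (fun n : ℕ => ((A ∩ {j | 1 ≤ j ∧ (j : ℝ) ≤ (n : ℝ) ^ q}).ncard : ENNReal) / n) atTop

section defs

variable {𝕜 : Type} [RCLike 𝕜] {X : Type} [NormedAddCommGroup X] [NormedSpace 𝕜 X]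

/-- `S` is a `λ`-scrambled set for `T`. -/
def IsScrambled (T : X →L[𝕜] X) (l : ℝ) (S : Set X) : Prop :=
  ∃ σ : ℝ, 0 < σ ∧ ∀ x ∈ S, ∀ y ∈ S, x ≠ y →
    lowerDensity (1 / l) {j | ‖(T ^ j) x - (T ^ j) y‖ < σ} = 0 ∧
    ∀ ε : ℝ, 0 < ε → lowerDensity (1 / l) {j | ε < ‖(T ^ j) x - (T ^ j) y‖} = 0

/-- `T` is `λ`-distributionally chaotic. -/
def IsChaotic (T : X →L[𝕜] X) (l : ℝ) : Prop :=
  ∃ S : Set X, ¬ S.Countable ∧ IsScrambled T l S

/-- `T` is densely `λ`-distributionally chaotic. -/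
def IsDenselyChaotic (T : X →L[𝕜] X) (l : ℝ) : Prop :=
  ∃ S : Set X, ¬ S.Countable ∧ Dense S ∧ IsScrambled T l S

/-- On the space `X` of sequences, with coordinates given by `co`, there is a weighted backward
shift `(T x) n = ω (n + 1) * x (n + 1)`, with a bounded sequence `ω` of positive weights, which is
densely `λ`-distributionally chaotic but not `λ'`-distributionally chaotic for any `λ' < λ`. -/
def HasExactShift (co : X → ℕ → 𝕜) (l : ℝ) : Prop :=
  ∃ ω : ℕ → ℝ, (∀ n, 0 < ω n) ∧ (∃ C : ℝ, ∀ n, ω n ≤ C) ∧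
    ∃ T : X →L[𝕜] X, (∀ x n, co (T x) n = (ω (n + 1) : 𝕜) * co x (n + 1)) ∧
      IsDenselyChaotic T l ∧ ∀ l' : ℝ, 0 < l' → l' < l → ¬ IsChaotic T l'

/-- Abstract sequence spaces. -/
structure SeqSpace (𝕜 X : Type) [RCLike 𝕜] [NormedAddCommGroup X] [NormedSpace 𝕜 X] where
  co : X →ₗ[𝕜] (ℕ → 𝕜)
  inj : Function.Injective co
  eval : ∀ x n, ‖co x n‖ ≤ ‖x‖
  dom : ∀ (x : X) (j : ℕ) (C : ℝ) (f : ℕ → 𝕜), 0 ≤ C → (∀ n, ‖f n‖ ≤ C * ‖co x (n + j)‖) →
    ∃ y : X, co y = f ∧ ‖y‖ ≤ C * ‖x‖
  e : ℕ → X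
  co_e : ∀ n, co (e n) = Pi.single n 1
  norm_e : ∀ n, ‖e n‖ ≤ 1
  tail : ∀ x, x ∈ closure (Submodule.span 𝕜 (Set.range e) : Set X)

end defs

/-! ### Densities -/

lemma fin_set (q : ℝ) (n : ℕ) : {j : ℕ | 1 ≤ j ∧ (j : ℝ) ≤ (n : ℝ) ^ q}.Finite := by
  apply (Set.finite_Icc 1 ⌊(n : ℝ) ^ q⌋₊).subset
  rintro j ⟨h1, h2⟩
  exact ⟨h1, Nat.le_floor h2⟩

lemma density_zero (q : ℝ) (A : Set ℕ) (n : ℕ → ℕ) (hn : Tendsto n atTop atTop)
    (c : ℕ → ℝ) (hc : Tendsto c atTop (𝓝 0))
    (h : ∀ᶠ k in atTop,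
      ((A ∩ {j | 1 ≤ j ∧ (j : ℝ) ≤ ((n k : ℕ) : ℝ) ^ q}).ncard : ℝ) ≤ c k * n k) :
    lowerDensity q A = 0 := by
  unfold lowerDensity
  apply le_antisymm _ bot_le
  apply ENNReal.le_of_forall_pos_le_add
  intro δ hδ _
  rw [bot_eq_zero, zero_add]
  apply liminf_le_of_frequently_le'
  have h1 : ∀ᶠ k in atTop, c k < δ := hc.eventually_lt_const (by exact_mod_cast hδ)
  have h2 := hn.eventually_gt_atTop 0
  have h3 : ∀ᶠ k in atTop, ((A ∩ {j | 1 ≤ j ∧ (j : ℝ) ≤ ((n k : ℕ) : ℝ) ^ q}).ncard : ENNReal) /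
      ((n k : ℕ) : ENNReal) ≤ δ := by
    filter_upwards [h, h1, h2] with k e1 e2 e3
    apply ENNReal.div_le_of_le_mul
    have e4 : ((A ∩ {j | 1 ≤ j ∧ (j : ℝ) ≤ ((n k : ℕ) : ℝ) ^ q}).ncard : ℝ) ≤
        (δ : ℝ) * ((n k : ℕ) : ℝ) := by
      refine e1.trans ?_
      gcongr
    have e5 : ((A ∩ {j | 1 ≤ j ∧ (j : ℝ) ≤ ((n k : ℕ) : ℝ) ^ q}).ncard : NNReal) ≤
        δ * ((n k : ℕ) : NNReal) := by
      rw [← NNReal.coe_le_coe]
      push_cast
      exact e4
    exact_mod_cast e5
  exact hn.frequently h3.frequently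

lemma density_pos (q : ℝ) (A : Set ℕ)
    (h : ∀ᶠ n : ℕ in atTop,
      (1 / 16 : ℝ) * n ≤ ((A ∩ {j | 1 ≤ j ∧ (j : ℝ) ≤ (n : ℝ) ^ q}).ncard : ℝ)) :
    lowerDensity q A ≠ 0 := by
  have h2 : ENNReal.ofReal (1 / 16) ≤ lowerDensity q A := by
    unfold lowerDensity
    apply le_liminf_of_le
    · isBoundedDefault
    filter_upwards [h, eventually_gt_atTop 0] with n hn hn0
    rw [ENNReal.le_div_iff_mul_le (Or.inl (by simp; omega)) (Or.inl (ENNReal.natCast_ne_top n))]
    have e1 : ((n : ℕ) : ENNReal) = ENNReal.ofReal (n : ℝ) := by simp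
    have e2 : (((A ∩ {j | 1 ≤ j ∧ (j : ℝ) ≤ (n : ℝ) ^ q}).ncard : ℕ) : ENNReal) =
        ENNReal.ofReal ((A ∩ {j | 1 ≤ j ∧ (j : ℝ) ≤ (n : ℝ) ^ q}).ncard : ℝ) := by simp
    rw [e1, e2, ← ENNReal.ofReal_mul (by norm_num)]
    exact ENNReal.ofReal_le_ofReal hn
  intro h0
  rw [h0] at h2
  simp at h2

section abstract

variable {𝕜 : Type} [RCLike 𝕜] {X : Type} [NormedAddCommGroup X] [NormedSpace 𝕜 X]
  [CompleteSpace X] (V : SeqSpace 𝕜 X)

lemma exists_of_summable (f : ℕ → 𝕜) (hf : Summable (fun n => ‖f n‖)) : ∃ y, V.co y = f := by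
  have h1 : Summable (fun n => f n • V.e n) := by
    apply Summable.of_norm_bounded hf
    intro n
    rw [norm_smul]
    have := V.norm_e n
    nlinarith [norm_nonneg (f n)]
  refine ⟨∑' n, f n • V.e n, ?_⟩
  funext m
  let φ : X →L[𝕜] 𝕜 := LinearMap.mkContinuous ((LinearMap.proj m).comp V.co) 1 (fun x => by
    rw [one_mul]
    exact V.eval x m)
  have h2 : ∀ x, φ x = V.co x m := fun x => rfl
  rw [← h2, φ.map_tsum h1, tsum_eq_single m]
  · rw [map_smul, h2, V.co_e]
    simp
  · intro n hn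
    rw [map_smul, h2, V.co_e, Pi.single_eq_of_ne (Ne.symm hn), smul_zero]

/-- finitely supported vectors -/
def Fin0 (x : X) : Prop := ∃ N : ℕ, ∀ n, N ≤ n → V.co x n = 0

omit [CompleteSpace X] in
lemma fin_span (x : X) (hx : x ∈ Submodule.span 𝕜 (Set.range V.e)) : Fin0 V x := by
  induction hx using Submodule.span_induction with
  | mem x hx =>
    obtain ⟨n, rfl⟩ := hx
    refine ⟨n + 1, fun m hm => ?_⟩
    rw [V.co_e, Pi.single_eq_of_ne (by omega)]
  | zero => exact ⟨0, fun n _ => by simp⟩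
  | add x y _ _ hx hy =>
    obtain ⟨N, hN⟩ := hx
    obtain ⟨N', hN'⟩ := hy
    refine ⟨max N N', fun n hn => ?_⟩
    rw [map_add, Pi.add_apply, hN n (by omega), hN' n (by omega), add_zero]
  | smul c x _ hx =>
    obtain ⟨N, hN⟩ := hx
    refine ⟨N, fun n hn => ?_⟩
    rw [map_smul, Pi.smul_apply, hN n hn, smul_zero]

lemma exists_dense : ∃ d : ℕ → X, DenseRange d ∧ ∀ i, Fin0 V (d i) := by
  have h1 : TopologicalSpace.IsSeparable (Submodule.span 𝕜 (Set.range V.e) : Set X) :=
    (Set.countable_range V.e).isSeparable.span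
  obtain ⟨t, ht1, ht2, ht3⟩ := h1.exists_countable_dense_subset
  have ht4 : t.Nonempty := by
    by_contra hne
    rw [Set.not_nonempty_iff_eq_empty] at hne
    rw [hne, closure_empty] at ht3
    exact ht3 (Submodule.zero_mem _)
  obtain ⟨d, hd⟩ := ht2.exists_eq_range ht4
  refine ⟨d, ?_, ?_⟩
  · intro x
    rw [← hd]
    exact (closure_minimal ht3 isClosed_closure) (V.tail x)
  · intro i
    apply fin_span V
    apply ht1
    rw [hd]
    exact ⟨i, rfl⟩

/-- the selection function -/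
lemma exists_phi : ∃ φ : ℝ → ℕ, ∀ (i : ℕ) (δ : ℝ), 0 < δ → ∃ c : ℝ, 0 < c ∧ c < δ ∧ c < 1 ∧ φ c = i := by
  refine ⟨fun c => (Nat.unpair ⌊1 / c⌋₊).1, ?_⟩
  intro i δ hδ
  obtain ⟨m, hm⟩ := exists_nat_gt (1 / δ + 1)
  have h1 : m ≤ Nat.pair i m := Nat.right_le_pair i m
  have h2 : (1 / δ + 1 : ℝ) < Nat.pair i m := hm.trans_le (by exact_mod_cast h1)
  have h3 : (0 : ℝ) < 1 / δ := by positivity
  have h4 : (0 : ℝ) < Nat.pair i m := by linarith
  refine ⟨1 / (Nat.pair i m : ℝ), by positivity, ?_, ?_, ?_⟩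
  · rw [div_lt_iff₀ h4]
    have h5 : 1 / δ < (Nat.pair i m : ℝ) := by linarith
    rw [div_lt_iff₀ hδ] at h5
    linarith
  · rw [div_lt_one h4]
    linarith
  · simp only [one_div, inv_inv, Nat.floor_natCast, Nat.unpair_pair]

theorem main_abs (l : ℝ) (hl : 0 < l) (hl1 : l ≤ 1) : HasExactShift (fun x => V.co x) l := by
  have hq : 1 ≤ 1 / l := by
    rw [le_div_iff₀ hl]
    linarith
  obtain ⟨a, b, α, M, ha1, hα1, hM1, hM0, hMs, hgap, hblk, hb1, hb2, hQ1, hQ2, hpow⟩ :=
    Pool.Agent.V11113.DC.exists_weights (1 / l) hq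
  set q := 1 / l with hqdef
  have hMpos : ∀ n, 0 < M n := fun n => lt_of_lt_of_le one_pos (hM1 n)
  have hMk : ∀ n, ((M n : ℝ) : 𝕜) ≠ 0 := fun n => by
    exact_mod_cast (hMpos n).ne'
  -- the operator
  have hex : ∀ x : X, ∃ y : X, V.co y = (fun n => ((M (n + 1) / M n : ℝ) : 𝕜) * V.co x (n + 1)) ∧
      ‖y‖ ≤ 3 * ‖x‖ := by
    intro x
    apply V.dom x 1 3 _ (by norm_num)
    intro n
    rw [norm_mul, RCLike.norm_ofReal, abs_of_pos (div_pos (hMpos _) (hMpos _))]
    gcongr
    rw [div_le_iff₀ (hMpos n)]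
    exact hMs n
  choose F hF1 hF2 using hex
  let T : X →L[𝕜] X := LinearMap.mkContinuous
    { toFun := F
      map_add' := fun x y => by
        apply V.inj
        rw [map_add, hF1, hF1, hF1, map_add]
        funext n
        simp [mul_add]
      map_smul' := fun c x => by
        apply V.inj
        rw [RingHom.id_apply, map_smul, hF1, hF1, map_smul]
        funext n
        simp
        ring } 3 hF2
  have hT : ∀ x n, V.co (T x) n = ((M (n + 1) / M n : ℝ) : 𝕜) * V.co x (n + 1) := by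
    intro x n
    have := congrFun (hF1 x) n
    exact this
  have hTj : ∀ (j : ℕ) x n, V.co ((T ^ j) x) n = ((M (n + j) / M n : ℝ) : 𝕜) * V.co x (n + j) := by
    intro j
    induction j with
    | zero =>
      intro x n
      rw [pow_zero, add_zero, div_self (hMpos n).ne']
      simp
    | succ j ih =>
      intro x n
      rw [pow_succ]
      change V.co ((T ^ j) (T x)) n = _
      rw [ih, hT, ← mul_assoc]
      have : n + (j + 1) = n + j + 1 := by ring
      rw [this]
      congr 1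
      have h1 := hMk n
      have h2 := hMk (n + j)
      push_cast
      field_simp
  -- gap bounds
  have hgapT : ∀ k j, b k < j → j * α (k + 1) ≤ a (k + 1) → ∀ x, ‖(T ^ j) x‖ ≤ 3 * ‖x‖ := by
    intro k j h1 h2 x
    obtain ⟨y, hy1, hy2⟩ := V.dom x j 3 (V.co ((T ^ j) x)) (by norm_num) (by
      intro n
      rw [hTj, norm_mul, RCLike.norm_ofReal, abs_of_pos (div_pos (hMpos _) (hMpos _))]
      gcongr
      rw [div_le_iff₀ (hMpos n)]
      exact hgap k j n h1 h2)
    rwa [V.inj hy1] at hy2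
  have hfinT : ∀ x, Fin0 V x → ∃ N : ℕ, ∀ j, N ≤ j → (T ^ j) x = 0 := by
    rintro x ⟨N, hN⟩
    refine ⟨N, fun j hj => ?_⟩
    apply V.inj
    funext n
    rw [hTj, hN _ (by omega), mul_zero, map_zero]
    rfl
  have hbk : ∀ k : ℕ, a k * (k + 1) ≤ b k := by
    intro k
    have h1 : (1 : ℝ) ≤ a k := by exact_mod_cast ha1 k
    have h2 : (0 : ℝ) ≤ k := Nat.cast_nonneg k
    have h3 : (a k : ℝ) * ((k : ℝ) + 1) ≤ b k :=
      (Real.self_le_rpow_of_one_le (by nlinarith) hq).trans (hb1 k)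
    exact_mod_cast h3
  have hbk' : ∀ k : ℕ, k + 1 ≤ b k := by
    intro k
    have := hbk k
    have := ha1 k
    nlinarith
  have hsmall : ∀ x (ε : ℝ), 0 < ε → ∃ K : ℕ, ∀ k, K ≤ k → ∀ j, b k < j →
      j * α (k + 1) ≤ a (k + 1) → ‖(T ^ j) x‖ < ε := by
    intro x ε hε
    obtain ⟨y, hy, hxy⟩ : ∃ y, Fin0 V y ∧ ‖x - y‖ < ε / 4 := by
      have := Metric.mem_closure_iff.1 (V.tail x) (ε / 4) (by positivity)
      obtain ⟨y, hy, h⟩ := this
      exact ⟨y, fin_span V y hy, by rwa [dist_eq_norm] at h⟩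
    obtain ⟨N, hN⟩ := hfinT y hy
    refine ⟨N, fun k hk j h1 h2 => ?_⟩
    have h3 := hN j (by have := hbk' k; omega)
    have h4 := hgapT k j h1 h2 (x - y)
    rw [map_sub, h3, sub_zero] at h4
    linarith
  refine ⟨fun n => if n = 0 then 1 else M n / M (n - 1), ?_, ⟨3, ?_⟩, T, ?_, ?_, ?_⟩
  · intro n
    simp only
    split_ifs
    · norm_num
    · exact div_pos (hMpos _) (hMpos _)
  · intro n
    simp only
    split_ifs with h
    · norm_num
    · rw [div_le_iff₀ (hMpos _)]
      obtain ⟨m, rfl⟩ : ∃ m, n = m + 1 := ⟨n - 1, by omega⟩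
      exact hMs m
  · intro x n
    change V.co (T x) n = _
    rw [hT]
    simp
  · -- dense chaos
    obtain ⟨y, hy⟩ := exists_of_summable V (fun n => (((1 / ((n : ℝ) + 1) ^ 2 : ℝ)) : 𝕜)) (by
      have h2 : Summable (fun i : ℕ => 1 / ((i : ℝ)) ^ 2) :=
        Real.summable_one_div_nat_pow.2 (by norm_num)
      have h3 := (summable_nat_add_iff 1).2 h2
      refine h3.congr fun i => ?_
      rw [RCLike.norm_ofReal, abs_of_pos (by positivity)]
      push_cast
      rfl)
    have hbig : ∀ k j, 2 * a k ≤ j → j ≤ b k → (k : ℝ) + 1 ≤ ‖(T ^ j) y‖ := by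
      intro k j h1 h2
      refine le_trans ?_ (V.eval _ 0)
      rw [hTj, hy, norm_mul, RCLike.norm_ofReal, RCLike.norm_ofReal, zero_add, hM0, div_one,
        abs_of_pos (hMpos j), abs_of_pos (by positivity), mul_one_div,
        le_div_iff₀ (by positivity)]
      exact hblk k j h1 h2
    obtain ⟨d, hd1, hd2⟩ := exists_dense V
    obtain ⟨φ, hφ⟩ := exists_phi
    -- differences
    have hdiff : ∀ c c' : ℝ, ∃ N : ℕ, ∀ j, N ≤ j →
        (T ^ j) (d (φ c) + (c : 𝕜) • y) - (T ^ j) (d (φ c') + (c' : 𝕜) • y) =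
          ((c - c' : ℝ) : 𝕜) • (T ^ j) y := by
      intro c c'
      obtain ⟨N1, hN1⟩ := hfinT _ (hd2 (φ c))
      obtain ⟨N2, hN2⟩ := hfinT _ (hd2 (φ c'))
      refine ⟨max N1 N2, fun j hj => ?_⟩
      rw [map_add, map_add, hN1 j (by omega), hN2 j (by omega), map_smul, map_smul, zero_add,
        zero_add, ← sub_smul]
      push_cast
      rfl
    have hinj : ∀ c c' : ℝ, d (φ c) + (c : 𝕜) • y = d (φ c') + (c' : 𝕜) • y → c = c' := by
      intro c c' h
      by_contra hne
      obtain ⟨N, hN⟩ := hdiff c c'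
      have h1 := hN (b (N + 1)) (by have := hbk' (N + 1); omega)
      rw [h, sub_self] at h1
      have h2 := hbig (N + 1) (b (N + 1)) (by
        have := hbk (N + 1)
        have := ha1 (N + 1)
        nlinarith) le_rfl
      have h3 : ‖((c - c' : ℝ) : 𝕜) • (T ^ (b (N + 1))) y‖ = 0 := by rw [← h1, norm_zero]
      rw [norm_smul, RCLike.norm_ofReal] at h3
      have h4 : 0 < |c - c'| := abs_pos.2 (sub_ne_zero.2 hne)
      have h5 : 0 < ‖(T ^ (b (N + 1))) y‖ := lt_of_lt_of_le (by positivity) h2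
      exact (mul_pos h4 h5).ne' h3
    refine ⟨(fun c : ℝ => d (φ c) + (c : 𝕜) • y) '' Set.Ioo 0 1, ?_, ?_, 1, one_pos, ?_⟩
    · intro hcount
      have h1 : (Set.Ioo (0 : ℝ) 1).Countable := by
        have h2 : Function.Injective (fun c : ℝ => d (φ c) + (c : 𝕜) • y) := fun c c' h => hinj c c' h
        exact Set.countable_of_injective_of_countable_image h2.injOn hcount
      have h2 := Cardinal.Real.Ioo_countable_iff.1 h1
      norm_num at h2
    · intro x
      rw [Metric.mem_closure_iff]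
      intro ε hε
      obtain ⟨i, hi⟩ := hd1.exists_dist_lt x (show (0 : ℝ) < ε / 2 by positivity)
      obtain ⟨c, hc1, hc2, hc3, hc4⟩ := hφ i (ε / 2 / (‖y‖ + 1)) (by positivity)
      refine ⟨_, ⟨c, ⟨hc1, hc3⟩, rfl⟩, ?_⟩
      simp only
      rw [hc4]
      have h1 : dist (d i) (d i + (c : 𝕜) • y) < ε / 2 := by
        rw [dist_eq_norm, sub_add_cancel_left, norm_neg, norm_smul, RCLike.norm_ofReal,
          abs_of_pos hc1]
        rw [lt_div_iff₀ (by positivity)] at hc2
        nlinarith [norm_nonneg y]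
      calc dist x (d i + (c : 𝕜) • y) ≤ dist x (d i) + dist (d i) (d i + (c : 𝕜) • y) :=
            dist_triangle _ _ _
        _ < ε := by linarith
    · rintro _ ⟨c, _, rfl⟩ _ ⟨c', _, rfl⟩ hne
      have hcc : c ≠ c' := fun h => hne (by simp only [h])
      have hr : 0 < |c - c'| := abs_pos.2 (sub_ne_zero.2 hcc)
      obtain ⟨N, hN⟩ := hdiff c c'
      have hk1 : Tendsto (fun k : ℕ => (k : ℝ) + 1) atTop atTop :=
        tendsto_atTop_add_const_right _ _ tendsto_natCast_atTop_atTop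
      constructor
      · apply density_zero _ _ (fun k => a k * (k + 1)) ?_ (fun k => (2 + N) / ((k : ℝ) + 1))
          (hk1.const_div_atTop _) ?_
        · apply tendsto_atTop_mono (f := fun k : ℕ => k)
          · intro k
            have := ha1 k
            nlinarith
          · exact tendsto_id
        · filter_upwards [(hk1.const_mul_atTop hr).eventually_ge_atTop 1] with k hk
          have hsub : {j : ℕ | ‖(T ^ j) (d (φ c) + (c : 𝕜) • y) -
              (T ^ j) (d (φ c') + (c' : 𝕜) • y)‖ < 1} ∩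
              {j | 1 ≤ j ∧ (j : ℝ) ≤ ((a k * (k + 1) : ℕ) : ℝ) ^ q} ⊆
              ↑(Finset.range (2 * a k + N)) := by
            rintro j ⟨h1, h2, h3⟩
            rw [Finset.coe_range, Set.mem_Iio]
            by_contra hlt
            push Not at hlt
            have h4 : (j : ℝ) ≤ b k := by
              refine h3.trans ?_
              push_cast
              exact hb1 k
            have h5 := hbig k j (by omega) (by exact_mod_cast h4)
            have h6 : ‖(T ^ j) (d (φ c) + (c : 𝕜) • y) -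
              (T ^ j) (d (φ c') + (c' : 𝕜) • y)‖ < 1 := h1
            rw [hN j (by omega), norm_smul, RCLike.norm_ofReal] at h6
            have h7 : |c - c'| * ((k : ℝ) + 1) ≤ |c - c'| * ‖(T ^ j) y‖ := by gcongr
            linarith
          have h8 := Set.ncard_le_ncard hsub (Finset.finite_toSet _)
          rw [Set.ncard_coe_finset, Finset.card_range] at h8
          have h9 : (({j : ℕ | ‖(T ^ j) (d (φ c) + (c : 𝕜) • y) -
              (T ^ j) (d (φ c') + (c' : 𝕜) • y)‖ < 1} ∩
              {j | 1 ≤ j ∧ (j : ℝ) ≤ ((a k * (k + 1) : ℕ) : ℝ) ^ q}).ncard : ℝ) ≤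
              2 * a k + N := by exact_mod_cast h8
          refine h9.trans ?_
          have h10 : (0 : ℝ) < (k : ℝ) + 1 := by positivity
          push_cast
          rw [div_mul_eq_mul_div, le_div_iff₀ h10]
          have h11 : (1 : ℝ) ≤ a k := by exact_mod_cast ha1 k
          have h12 : (0 : ℝ) ≤ N := Nat.cast_nonneg N
          nlinarith [mul_nonneg h12 h10.le, mul_nonneg (mul_nonneg h12 h10.le) (sub_nonneg.2 h11)]
      · intro ε hε
        obtain ⟨K, hK⟩ := hsmall y (ε / |c - c'|) (by positivity)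
        apply density_zero _ _ (fun k => (k + 1) * b k) ?_ (fun k => 1 / ((k : ℝ) + 1))
          (hk1.const_div_atTop _) ?_
        · apply tendsto_atTop_mono (f := fun k : ℕ => k)
          · intro k
            have := hbk' k
            nlinarith
          · exact tendsto_id
        · filter_upwards [eventually_ge_atTop K, eventually_ge_atTop N] with k hk hkN
          have hsub : {j : ℕ | ε < ‖(T ^ j) (d (φ c) + (c : 𝕜) • y) -
              (T ^ j) (d (φ c') + (c' : 𝕜) • y)‖} ∩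
              {j | 1 ≤ j ∧ (j : ℝ) ≤ (((k + 1) * b k : ℕ) : ℝ) ^ q} ⊆
              ↑(Finset.Icc 1 (b k)) := by
            rintro j ⟨h1, h2, h3⟩
            rw [Finset.coe_Icc, Set.mem_Icc]
            refine ⟨h2, ?_⟩
            by_contra hlt
            push Not at hlt
            have h4 : j * α (k + 1) ≤ a (k + 1) := by
              have h5 := hQ1 k
              have h6 : (j : ℝ) * α (k + 1) ≤ a (k + 1) := by
                refine le_trans ?_ h5
                gcongr
                refine h3.trans (le_of_eq ?_)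
                push_cast
                rfl
              exact_mod_cast h6
            have h5 := hK k hk j hlt h4
            have h6 : ε < ‖(T ^ j) (d (φ c) + (c : 𝕜) • y) -
              (T ^ j) (d (φ c') + (c' : 𝕜) • y)‖ := h1
            rw [hN j (by have := hbk' k; omega), norm_smul, RCLike.norm_ofReal] at h6
            rw [lt_div_iff₀ hr] at h5
            linarith
          have h8 := Set.ncard_le_ncard hsub (Finset.finite_toSet _)
          rw [Set.ncard_coe_finset, Nat.card_Icc] at h8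
          have h9 : (({j : ℕ | ε < ‖(T ^ j) (d (φ c) + (c : 𝕜) • y) -
              (T ^ j) (d (φ c') + (c' : 𝕜) • y)‖} ∩
              {j | 1 ≤ j ∧ (j : ℝ) ≤ (((k + 1) * b k : ℕ) : ℝ) ^ q}).ncard : ℝ) ≤ b k := by
            have h10 : b k + 1 - 1 = b k := by omega
            rw [h10] at h8
            exact_mod_cast h8
          refine h9.trans (le_of_eq ?_)
          push_cast
          field_simp
  · -- no chaos for smaller exponents
    rintro l' hl' hll' ⟨S, hS, σ, hσ, h⟩
    obtain ⟨x, hx, y, hy, hxy⟩ : ∃ x ∈ S, ∃ y ∈ S, x ≠ y := by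
      by_contra hcon
      push Not at hcon
      exact hS (Set.Subsingleton.countable (fun x hx y hy => hcon x hx y hy))
    have h1 := (h x hx y hy hxy).1
    set q' := 1 / l' with hq'
    have hqq' : q < q' := by
      rw [hqdef, hq']
      exact one_div_lt_one_div_of_lt hl' hll'
    set A := {j : ℕ | ‖(T ^ j) x - (T ^ j) y‖ < σ} with hA
    obtain ⟨K, hK⟩ := hsmall (x - y) σ hσ
    have hAmem : ∀ k, K ≤ k → ∀ j, b k < j → j * α (k + 1) ≤ a (k + 1) → j ∈ A := by
      intro k hk j h2 h3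
      have := hK k hk j h2 h3
      rw [map_sub] at this
      exact this
    refine density_pos q' A ?_ h1
    -- real gap ends
    set g : ℕ → ℝ := fun k => (a k : ℝ) / α k with hg
    have hαpos : ∀ k, (0 : ℝ) < α k := fun k => by
      have := hα1 k
      exact_mod_cast this
    have hapos : ∀ k, (0 : ℝ) < a k := fun k => by
      have := ha1 k
      exact_mod_cast this
    have hbpos : ∀ k, (0 : ℝ) < b k := fun k => by
      have := hbk' k
      have h2 : 0 < b k := by omega
      exact_mod_cast h2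
    have hgb : ∀ k, 4 * ((b k : ℝ) + 1) ≤ g (k + 1) := by
      intro k
      rw [hg]
      simp only
      rw [le_div_iff₀ (hαpos _)]
      exact hQ2 k
    have hgbk : ∀ k, g k ≤ b k := by
      intro k
      rw [hg]
      simp only
      rw [div_le_iff₀ (hαpos _)]
      have h2 : (a k : ℝ) * ((k : ℝ) + 1) ≤ b k := by exact_mod_cast hbk k
      have h3 : (1 : ℝ) ≤ α k := by exact_mod_cast hα1 k
      have h4 : (0 : ℝ) ≤ k := Nat.cast_nonneg k
      nlinarith [hapos k, hbpos k]
    have hgmono : Monotone g := monotone_nat_of_le_succ fun k => by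
      have := hgb k
      have := hgbk k
      have := hbpos k
      linarith
    have hgtend : Tendsto g atTop atTop := by
      apply (tendsto_add_atTop_iff_nat 1).1
      apply tendsto_atTop_mono (f := fun k : ℕ => (k : ℝ))
      · intro k
        have := hgb k
        have h2 : ((k : ℝ) + 1) ≤ b k := by exact_mod_cast hbk' k
        have := hbpos k
        linarith
      · exact tendsto_natCast_atTop_atTop
    -- choice of the first block
    obtain ⟨K', hK'⟩ := exists_nat_gt (q' / (q' - q))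
    have hK'2 : ∀ k, K' ≤ k → q' ≤ ((k : ℝ) + 1) * (q' - q) := by
      intro k hk
      rw [div_lt_iff₀ (by linarith)] at hK'
      have h2 : (K' : ℝ) ≤ k := by exact_mod_cast hk
      nlinarith
    set K0 := max K K' + 1 with hK0
    have hex : ∀ N : ℝ, g K0 ≤ N → ∃ k, K0 ≤ k ∧ g k ≤ N ∧ N < g (k + 1) := by
      classical
      intro N hN
      have hex : ∃ k, N < g (k + 1) := by
        obtain ⟨k, hk⟩ := (hgtend.eventually_gt_atTop N).exists
        exact ⟨k, hk.trans_le (hgmono (Nat.le_succ k))⟩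
      have h1 := Nat.find_spec hex
      have h2 : K0 ≤ Nat.find hex := by
        by_contra hlt
        push Not at hlt
        have := hgmono (show Nat.find hex + 1 ≤ K0 by omega)
        linarith
      refine ⟨Nat.find hex, h2, ?_, h1⟩
      rcases Nat.eq_or_lt_of_le h2 with h3 | h3
      · rw [← h3]; exact hN
      · have h4 : Nat.find hex - 1 + 1 = Nat.find hex := by omega
        have h5 := Nat.find_min hex (show Nat.find hex - 1 < Nat.find hex by omega)
        rw [h4] at h5
        exact not_lt.1 h5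
    have hq'1 : 1 ≤ q' := by linarith
    filter_upwards [eventually_ge_atTop 2, tendsto_natCast_atTop_atTop.eventually_ge_atTop (g K0)]
      with n hn2 hng
    have hn1 : (2 : ℝ) ≤ n := by exact_mod_cast hn2
    have hnq : (n : ℝ) ≤ (n : ℝ) ^ q' := Real.self_le_rpow_of_one_le (by linarith) hq'1
    obtain ⟨k, hk1, hk2, hk3⟩ := hex ((n : ℝ) ^ q') (hng.trans hnq)
    obtain ⟨m, rfl⟩ : ∃ m, k = m + 1 := ⟨k - 1, by omega⟩
    have hfin : (A ∩ {j | 1 ≤ j ∧ (j : ℝ) ≤ (n : ℝ) ^ q'}).Finite :=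
      (fin_set q' n).subset Set.inter_subset_right
    rcases le_or_gt ((n : ℝ) ^ q') (4 * b (m + 1)) with hcase | hcase
    · -- first case
      have hn8 : (n : ℝ) ≤ 8 * g (m + 1) := by
        by_contra hlt
        push Not at hlt
        have hgpos : 0 < g (m + 1) := div_pos (hapos _) (hαpos _)
        have h2 : (8 * g (m + 1)) ^ q' < (n : ℝ) ^ q' :=
          Real.rpow_lt_rpow (by positivity) hlt (by linarith)
        have h3 : 8 * (g (m + 1)) ^ q' ≤ (8 * g (m + 1)) ^ q' := by
          rw [Real.mul_rpow (by norm_num) hgpos.le]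
          have : (8 : ℝ) ≤ 8 ^ q' := Real.self_le_rpow_of_one_le (by norm_num) hq'1
          gcongr
        have h4 := hb2 (m + 1)
        -- lower bound for g ^ q'
        have h5 : ((a (m + 1) : ℝ) * (((m + 1 : ℕ) : ℝ) + 1)) ^ q ≤ (g (m + 1)) ^ q' := by
          rw [hg]
          simp only
          rw [Real.div_rpow (hapos _).le (hαpos _).le, le_div_iff₀ (Real.rpow_pos_of_pos (hαpos _) _),
            Real.mul_rpow (hapos _).le (by positivity)]
          set s : ℝ := ((m + 1 : ℕ) : ℝ) + 1 with hs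
          have hs1 : 1 ≤ s := by
            rw [hs]
            have : (0 : ℝ) ≤ ((m + 1 : ℕ) : ℝ) := Nat.cast_nonneg _
            linarith
          have hα1' : (1 : ℝ) ≤ α (m + 1) := by exact_mod_cast hα1 (m + 1)
          have h6 : s ^ q ≤ s ^ q' := Real.rpow_le_rpow_of_exponent_le hs1 hqq'.le
          have h7 : s ^ q' * (α (m + 1) : ℝ) ^ q' = (s * α (m + 1)) ^ q' :=
            (Real.mul_rpow (by linarith) (by linarith)).symm
          have h8 : (s * α (m + 1)) ^ q' ≤ (a (m + 1) : ℝ) ^ (q' - q) := by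
            have h9 : (s * α (m + 1)) ^ (m + 1 + 1) ≤ (a (m + 1) : ℝ) := hpow (m + 1)
            have h10 : 1 ≤ s * α (m + 1) := by nlinarith
            have h11 : q' ≤ s * (q' - q) := hK'2 (m + 1) (by omega)
            calc (s * α (m + 1)) ^ q' ≤ (s * α (m + 1)) ^ (s * (q' - q)) :=
                  Real.rpow_le_rpow_of_exponent_le h10 h11
              _ = ((s * α (m + 1)) ^ s) ^ (q' - q) := Real.rpow_mul (by linarith) _ _
              _ ≤ (a (m + 1) : ℝ) ^ (q' - q) := by
                  apply Real.rpow_le_rpow (by positivity) _ (by linarith)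
                  have h12 : s = ((m + 1 + 1 : ℕ) : ℝ) := by
                    rw [hs]; push_cast; ring
                  have h13 : (s * α (m + 1)) ^ s = (s * α (m + 1)) ^ (m + 1 + 1) := by
                    conv_lhs => rw [h12]
                    rw [Real.rpow_natCast, ← h12]
                  rw [h13]
                  exact h9
          calc (a (m + 1) : ℝ) ^ q * s ^ q * (α (m + 1) : ℝ) ^ q' ≤
              (a (m + 1) : ℝ) ^ q * s ^ q' * (α (m + 1) : ℝ) ^ q' := by gcongr
            _ = (a (m + 1) : ℝ) ^ q * (s * α (m + 1)) ^ q' := by rw [← h7]; ring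
            _ ≤ (a (m + 1) : ℝ) ^ q * (a (m + 1) : ℝ) ^ (q' - q) := by gcongr
            _ = (a (m + 1) : ℝ) ^ q' := by
              rw [← Real.rpow_add (hapos _)]
              congr 1
              ring
        linarith
      have hsub : (↑(Finset.Ioc (b m) ⌊g (m + 1)⌋₊) : Set ℕ) ⊆
          A ∩ {j | 1 ≤ j ∧ (j : ℝ) ≤ (n : ℝ) ^ q'} := by
        intro j hj
        rw [Finset.coe_Ioc, Set.mem_Ioc] at hj
        have h2 : (j : ℝ) ≤ g (m + 1) := by
          have := Nat.floor_le (div_pos (hapos (m + 1)) (hαpos (m + 1))).le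
          have h3 : (j : ℝ) ≤ (⌊g (m + 1)⌋₊ : ℝ) := by exact_mod_cast hj.2
          exact h3.trans this
        refine ⟨hAmem m (by omega) j hj.1 ?_, by omega, h2.trans hk2⟩
        rw [hg] at h2
        simp only at h2
        rw [le_div_iff₀ (hαpos _)] at h2
        exact_mod_cast h2
      have h8 := Set.ncard_le_ncard hsub hfin
      rw [Set.ncard_coe_finset, Nat.card_Ioc] at h8
      have h9 : (g (m + 1)) - 1 - b m ≤
          ((A ∩ {j | 1 ≤ j ∧ (j : ℝ) ≤ (n : ℝ) ^ q'}).ncard : ℝ) := by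
        have h10 : g (m + 1) < (⌊g (m + 1)⌋₊ : ℝ) + 1 := Nat.lt_floor_add_one _
        have h11 : ((⌊g (m + 1)⌋₊ : ℝ)) ≤
            ((A ∩ {j | 1 ≤ j ∧ (j : ℝ) ≤ (n : ℝ) ^ q'}).ncard : ℝ) + b m := by
          have : ⌊g (m + 1)⌋₊ ≤ (A ∩ {j | 1 ≤ j ∧ (j : ℝ) ≤ (n : ℝ) ^ q'}).ncard + b m := by omega
          exact_mod_cast this
        linarith
      have h10 := hgb m
      have h11 := hbpos m
      linarith
    · -- second case
      have hsub : (↑(Finset.Ioc (b (m + 1)) ⌊(n : ℝ) ^ q'⌋₊) : Set ℕ) ⊆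
          A ∩ {j | 1 ≤ j ∧ (j : ℝ) ≤ (n : ℝ) ^ q'} := by
        intro j hj
        rw [Finset.coe_Ioc, Set.mem_Ioc] at hj
        have h2 : (j : ℝ) ≤ (n : ℝ) ^ q' := by
          have := Nat.floor_le (show (0 : ℝ) ≤ (n : ℝ) ^ q' by positivity)
          have h3 : (j : ℝ) ≤ (⌊(n : ℝ) ^ q'⌋₊ : ℝ) := by exact_mod_cast hj.2
          exact h3.trans this
        refine ⟨hAmem (m + 1) (by omega) j hj.1 ?_, by omega, h2⟩
        have h3 : (j : ℝ) ≤ g (m + 1 + 1) := h2.trans hk3.le
        rw [hg] at h3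
        simp only at h3
        rw [le_div_iff₀ (hαpos _)] at h3
        exact_mod_cast h3
      have h8 := Set.ncard_le_ncard hsub hfin
      rw [Set.ncard_coe_finset, Nat.card_Ioc] at h8
      have h9 : (n : ℝ) ^ q' - 1 - b (m + 1) ≤
          ((A ∩ {j | 1 ≤ j ∧ (j : ℝ) ≤ (n : ℝ) ^ q'}).ncard : ℝ) := by
        have h10 : (n : ℝ) ^ q' < (⌊(n : ℝ) ^ q'⌋₊ : ℝ) + 1 := Nat.lt_floor_add_one _
        have h11 : ((⌊(n : ℝ) ^ q'⌋₊ : ℝ)) ≤
            ((A ∩ {j | 1 ≤ j ∧ (j : ℝ) ≤ (n : ℝ) ^ q'}).ncard : ℝ) + b (m + 1) := by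
          have : ⌊(n : ℝ) ^ q'⌋₊ ≤
              (A ∩ {j | 1 ≤ j ∧ (j : ℝ) ≤ (n : ℝ) ^ q'}).ncard + b (m + 1) := by omega
          exact_mod_cast this
        linarith
      linarith

end abstract

/-! ### The concrete spaces -/

section concrete

variable (𝕜 : Type) [RCLike 𝕜]

/-- `ℓᵖ` as an abstract sequence space -/
noncomputable def lpSpace (p : ENNReal) [Fact (1 ≤ p)] (hp : p ≠ ⊤) :
    SeqSpace 𝕜 (lp (fun _ : ℕ => 𝕜) p) := by
  have hp0 : p ≠ 0 := (lt_of_lt_of_le one_pos (Fact.out : 1 ≤ p)).ne'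
  have hpr : 0 < p.toReal := ENNReal.toReal_pos hp0 hp
  exact
  { co :=
      { toFun := fun x => x
        map_add' := fun x y => lp.coeFn_add x y
        map_smul' := fun c x => lp.coeFn_smul c x }
    inj := fun x y h => lp.ext h
    eval := fun x n => lp.norm_apply_le_norm hp0 x n
    dom := fun x j C f hC hf => by
      have hsh : Memℓp (fun n => x (n + j)) p := by
        apply memℓp_gen
        exact (summable_nat_add_iff j).2 ((lp.memℓp x).summable hpr)
      have hmem : Memℓp f p := by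
        apply (hsh.norm.const_smul C).mono
        intro n
        exact hf n
      refine ⟨⟨f, hmem⟩, rfl, ?_⟩
      apply lp.norm_le_of_forall_sum_le hpr (by positivity)
      intro s
      calc ∑ i ∈ s, ‖f i‖ ^ p.toReal ≤ ∑ i ∈ s, (C * ‖x (i + j)‖) ^ p.toReal := by
            gcongr with i _
            exact hf i
        _ = C ^ p.toReal * ∑ i ∈ s, ‖x (i + j)‖ ^ p.toReal := by
            rw [Finset.mul_sum]
            refine Finset.sum_congr rfl fun i _ => ?_
            rw [Real.mul_rpow hC (norm_nonneg _)]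
        _ = C ^ p.toReal * ∑ i ∈ s.map (addRightEmbedding j), ‖x i‖ ^ p.toReal := by
            rw [Finset.sum_map]
            rfl
        _ ≤ C ^ p.toReal * ‖x‖ ^ p.toReal := by
            gcongr
            exact lp.sum_rpow_le_norm_rpow hpr x _
        _ = (C * ‖x‖) ^ p.toReal := (Real.mul_rpow hC (norm_nonneg _)).symm
    e := fun n => lp.single p n (1 : 𝕜)
    co_e := fun n => by
      funext m
      exact lp.coeFn_single (E := fun _ : ℕ => 𝕜) p n (1 : 𝕜) ▸ rfl
    norm_e := fun n => by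
      rw [lp.norm_single (lt_of_lt_of_le one_pos (Fact.out : 1 ≤ p)), norm_one]
    tail := fun x => by
      have h := lp.hasSum_single hp x
      apply mem_closure_of_tendsto h
      filter_upwards with s
      apply Submodule.sum_mem
      intro i _
      have : lp.single p i (x i) = (x i) • (lp.single p i (1 : 𝕜) : lp (fun _ : ℕ => 𝕜) p) := by
        rw [← lp.single_smul, smul_eq_mul, mul_one]
      rw [this]
      exact Submodule.smul_mem _ _ (Submodule.subset_span ⟨i, rfl⟩) }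

open ZeroAtInfty

lemma c0_of {f : ℕ → 𝕜} (hf : Tendsto f atTop (𝓝 0)) : ∃ y : C₀(ℕ, 𝕜), (y : ℕ → 𝕜) = f :=
  ⟨⟨⟨f, continuous_of_discreteTopology⟩, by
    change Tendsto f _ _
    rwa [Filter.cocompact_eq_cofinite, Nat.cofinite_eq_atTop]⟩, rfl⟩

lemma c0_tendsto (x : C₀(ℕ, 𝕜)) : Tendsto (fun n => x n) atTop (𝓝 0) := by
  have := x.zero_at_infty'
  rwa [Filter.cocompact_eq_cofinite, Nat.cofinite_eq_atTop] at this

lemma c0_eval (x : C₀(ℕ, 𝕜)) (n : ℕ) : ‖x n‖ ≤ ‖x‖ :=
  x.toBCF.norm_coe_le_norm n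

lemma c0_norm_le (x : C₀(ℕ, 𝕜)) (C : ℝ) (hC : 0 ≤ C) (h : ∀ n, ‖x n‖ ≤ C) : ‖x‖ ≤ C :=
  (BoundedContinuousFunction.norm_le (f := x.toBCF) hC).2 h

/-- `c₀` as an abstract sequence space -/
noncomputable def c0Space : SeqSpace 𝕜 C₀(ℕ, 𝕜) where
  co :=
    { toFun := fun x => x
      map_add' := fun x y => rfl
      map_smul' := fun c x => rfl }
  inj := fun x y h => DFunLike.coe_injective h
  eval := fun x n => c0_eval 𝕜 x n
  dom := fun x j C f hC hf => by
    have h1 : Tendsto f atTop (𝓝 0) := by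
      have h2 : Tendsto (fun n => C * ‖x (n + j)‖) atTop (𝓝 (C * ‖(0 : 𝕜)‖)) :=
        ((c0_tendsto 𝕜 x).comp (tendsto_add_atTop_nat j)).norm.const_mul C
      rw [norm_zero, mul_zero] at h2
      exact squeeze_zero_norm hf h2
    obtain ⟨y, hy⟩ := c0_of 𝕜 h1
    refine ⟨y, hy, ?_⟩
    apply c0_norm_le 𝕜 y _ (by positivity)
    intro n
    rw [hy]
    refine (hf n).trans ?_
    have := c0_eval 𝕜 x (n + j)
    gcongr
    exact this
  e := fun n => (c0_of 𝕜 (f := Pi.single n 1) (by
    apply tendsto_const_nhds.congr'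
    filter_upwards [eventually_gt_atTop n] with m hm
    rw [Pi.single_eq_of_ne (by omega)])).choose
  co_e := fun n => (c0_of 𝕜 (f := Pi.single n 1) (by
    apply tendsto_const_nhds.congr'
    filter_upwards [eventually_gt_atTop n] with m hm
    rw [Pi.single_eq_of_ne (by omega)])).choose_spec
  norm_e := fun n => by
    apply c0_norm_le 𝕜 _ _ zero_le_one
    intro m
    rw [(c0_of 𝕜 (f := Pi.single n 1) (by
      apply tendsto_const_nhds.congr'
      filter_upwards [eventually_gt_atTop n] with m hm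
      rw [Pi.single_eq_of_ne (by omega)])).choose_spec]
    by_cases h : m = n
    · subst h
      simp
    · rw [Pi.single_eq_of_ne h]
      simp
  tail := fun x => by
    rw [Metric.mem_closure_iff]
    intro ε hε
    have h1 := (c0_tendsto 𝕜 x).norm
    rw [norm_zero] at h1
    obtain ⟨N, hN⟩ := eventually_atTop.1 (h1.eventually_lt_const (show (0 : ℝ) < ε / 2 by positivity))
    have hex : ∀ n : ℕ, ∃ y : C₀(ℕ, 𝕜), (y : ℕ → 𝕜) = Pi.single n 1 := fun n => c0_of 𝕜 (by
      apply tendsto_const_nhds.congr'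
      filter_upwards [eventually_gt_atTop n] with m hm
      rw [Pi.single_eq_of_ne (by omega)])
    refine ⟨∑ n ∈ Finset.range N, (x n) • (hex n).choose, ?_, ?_⟩
    · apply Submodule.sum_mem
      intro i _
      exact Submodule.smul_mem _ _ (Submodule.subset_span ⟨i, rfl⟩)
    · rw [dist_eq_norm]
      refine lt_of_le_of_lt (c0_norm_le 𝕜 _ (ε / 2) (by positivity) ?_) (by linarith)
      intro m
      have h2 : (x - ∑ n ∈ Finset.range N, (x n) • (hex n).choose : C₀(ℕ, 𝕜)) m =
          x m - ∑ n ∈ Finset.range N, (x n) • (Pi.single n 1 : ℕ → 𝕜) m := by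
        rw [ZeroAtInftyContinuousMap.sub_apply]
        congr 1
        have h3 : ∀ s : Finset ℕ, (∑ n ∈ s, (x n) • (hex n).choose : C₀(ℕ, 𝕜)) m =
            ∑ n ∈ s, (x n) • (Pi.single n 1 : ℕ → 𝕜) m := by
          intro s
          induction s using Finset.induction_on with
          | empty => simp
          | insert a s ha ih =>
            rw [Finset.sum_insert ha, Finset.sum_insert ha, ZeroAtInftyContinuousMap.add_apply, ih,
              ZeroAtInftyContinuousMap.smul_apply, (hex a).choose_spec]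
        exact h3 _
      rw [h2]
      by_cases hm : m < N
      · rw [Finset.sum_eq_single m]
        · simp
          positivity
        · intro b _ hb
          rw [Pi.single_eq_of_ne (Ne.symm hb), smul_zero]
        · intro h
          exact absurd (Finset.mem_range.2 hm) h
      · rw [Finset.sum_eq_zero]
        · rw [sub_zero]
          exact (hN m (by omega)).le
        · intro n hn
          rw [Finset.mem_range] at hn
          rw [Pi.single_eq_of_ne (by omega), smul_zero]

end concrete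

open ZeroAtInfty in
/-- **Existence of weighted backward shifts with an exact distributional chaos exponent**, on
`ℓᵖ(ℕ)` for `1 ≤ p < ∞` and on `c₀(ℕ)`, over `ℝ` and `ℂ`, for all `λ ∈ (0, 1]`. -/
theorem result (𝕜 : Type) [RCLike 𝕜] (l : ℝ) (hl : 0 < l) (hl1 : l ≤ 1) :
    (∀ (p : ENNReal) [Fact (1 ≤ p)], p ≠ ⊤ →
      HasExactShift (fun (x : lp (fun _ : ℕ => 𝕜) p) (n : ℕ) => x n) l) ∧
    HasExactShift (fun (x : C₀(ℕ, 𝕜)) (n : ℕ) => x n) l :=
  ⟨fun p _ hp => main_abs (lpSpace 𝕜 p hp) l hl hl1, main_abs (c0Space 𝕜) l hl hl1⟩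

end Pool.Agent.Results.MP_39b2af_an.ExactExponent
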